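import Pool.Agent.H.MP_0896da_co.A

namespace Pool.Agent.Results.MP_0896da_co.Theta

open Pool.Agent.H.MP_0896da_co Filter Asymptotics

theorem result :
    (∀ n : ℕ, 5 ≤ n → ((Mset n).card : ℝ) / 96 ≤ ((Mset n).card : ℝ) - (smax n : ℝ)) ∧
    (fun n : ℕ => ((Mset n).card : ℝ) - (smax n : ℝ)) =Θ[atTop]
      (fun n : ℕ => ((Mset n).card : ℝ)) := by
  have key : ∀ n : ℕ, 5 ≤ n → ((Mset n).card : ℝ) / 96 ≤ ((Mset n).card : ℝ) - (smax n : ℝ) := by
    intro n hn
    obtain ⟨k, rfl⟩ : ∃ k, n = k + 5 := ⟨n - 5, by omega⟩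
    classical
    obtain ⟨S, hS, he⟩ := Finset.exists_mem_eq_sup ((Mset (k + 5)).powerset.filter IsSidon)
      ⟨∅, by simp [IsSidon]⟩ Finset.card
    have hs : smax (k + 5) = S.card := by unfold smax; convert he
    obtain ⟨h1, h2⟩ := Finset.mem_filter.1 hS
    have h3 := sidon_bd k S h2
    have h4 := V_five k
    have h5 := Finset.card_sdiff_add_card_eq_card (Finset.mem_powerset.1 h1)
    rw [← card_Mset] at h4
    have h6 : (Mset (k + 5)).card + 96 * S.card ≤ 96 * (Mset (k + 5)).card := by omega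
    have h7 : ((Mset (k + 5)).card : ℝ) + 96 * S.card ≤ 96 * (Mset (k + 5)).card := by
      exact_mod_cast h6
    rw [hs]; linarith
  refine ⟨key, ?_, ?_⟩
  · refine IsBigO.of_bound 1 ?_
    filter_upwards [eventually_ge_atTop 5] with n hn
    have h := key n hn
    have a : (0 : ℝ) ≤ (Mset n).card := Nat.cast_nonneg _
    have b : (0 : ℝ) ≤ smax n := Nat.cast_nonneg _
    rw [Real.norm_of_nonneg a, Real.norm_of_nonneg (by linarith)]; linarith
  · refine IsBigO.of_bound 96 ?_
    filter_upwards [eventually_ge_atTop 5] with n hn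
    have h := key n hn
    have a : (0 : ℝ) ≤ (Mset n).card := Nat.cast_nonneg _
    rw [Real.norm_of_nonneg a, Real.norm_of_nonneg (by linarith)]; linarith

end Pool.Agent.Results.MP_0896da_co.Theta
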